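import Pool.Agent.N637.SLM.Stm
import Pool.Agent.N530.SLK.N2

/-!
# SLM/N2c: the place 2, necessity, `c = 2 mod 4`, `m = 5 mod 8` (written by helper394)

After `Pool.Agent.N530.SLK.N2` (helper530).
-/

set_option autoImplicit false

namespace Pool.Agent.N394.SLM

open Pool.Agent.TH841.SH (LocC SelG)
open Pool.Agent.Y667.RP (mod_of_sq)
open Pool.Agent.N875.X15 (even_val sq_cancel sq_trans close2 sq_of_mod8 unit_part unit_odd int_of_sq
  val_add_eq val_zero not_dvd_of_even to_coord odd_of_sq)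
open Pool.Agent.N637.P21 (v2)
open Pool.Agent.N530.SLK (Un un_sq val_un)

lemma val_un4 {κ : ℤ_[2]} (hκ : Un κ) {m : ℤ} (hm : m ≠ 0) :
    (4 * (κ : ℚ_[2]) * m).valuation = 2 + (m : ℚ_[2]).valuation := by
  have hm' : (m : ℚ_[2]) ≠ 0 := by exact_mod_cast hm
  rw [Padic.valuation_mul (mul_ne_zero (by norm_num) hκ.ne) hm',
    Padic.valuation_mul (by norm_num) hκ.ne, hκ.val, add_zero]
  congr 1
  have : (4 : ℚ_[2]) = 2 ^ 2 := by norm_num
  rw [this, Padic.valuation_pow, v2]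
  norm_num

lemma mod8_five {m : ℤ} (hm : m % 8 = 5) : PadicInt.toZModPow (p := 2) 3 (m : ℤ_[2]) = 5 := by
  rw [map_intCast]
  have : ((8 : ℕ) : ℤ) ∣ m - 5 := by push_cast; omega
  have h2 := (ZMod.intCast_zmod_eq_zero_iff_dvd (m - 5) 8).2 this
  rw [Int.cast_sub] at h2
  have h3 := sub_eq_zero.1 h2
  exact_mod_cast h3

/-- the coordinates at 2 -/
theorem two_c {m : ℤ} (hm8 : m % 8 = 5) {α κ : ℤ_[2]} (hα : Un α) (hκ : Un κ) {v : ℚ_[2]}
    (hv : v ≠ 0) (hu : v + α * m ≠ 0) (hw : v + 4 * κ * m ≠ 0)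
    (hs : IsSquare (v * (v + α * m) * (v + 4 * κ * m))) :
    Even v.valuation ∧ (IsSquare (v + α * m) ∨ IsSquare ((v + α * m) * 5)) := by
  have hm : m ≠ 0 := by rintro rfl; simp at hm8
  have hm' : (m : ℚ_[2]) ≠ 0 := by exact_mod_cast hm
  have vm : (m : ℚ_[2]).valuation = 0 := val_zero (by push_cast; omega)
  have v9 : ((α : ℚ_[2]) * (m : ℚ_[2])).valuation = 0 := by rw [val_un hα hm, vm]
  have v16 : (4 * (κ : ℚ_[2]) * (m : ℚ_[2])).valuation = 2 := by
    rw [val_un4 hκ hm, vm]; norm_num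
  have h9 : (α : ℚ_[2]) * m ≠ 0 := mul_ne_zero hα.ne hm'
  have h16 : 4 * (κ : ℚ_[2]) * m ≠ 0 := mul_ne_zero (mul_ne_zero (by norm_num) hκ.ne) hm'
  have hsum : Even (v.valuation + (v + α * m).valuation + (v + 4 * κ * m).valuation) := by
    have := even_val (mul_ne_zero (mul_ne_zero hv hu) hw) hs
    rwa [Padic.valuation_mul (mul_ne_zero hv hu) hw, Padic.valuation_mul hv hu] at this
  obtain ⟨r, hr⟩ := hsum
  obtain ⟨s, hs1, hs2⟩ := unit_part hv
  have hodd := unit_odd hs1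
  have hodd' : PadicInt.toZModPow 3 s = 1 ∨ PadicInt.toZModPow 3 s = 3 ∨
      PadicInt.toZModPow 3 s = 5 ∨ PadicInt.toZModPow 3 s = 7 := by simpa using hodd
  have c4 : PadicInt.toZModPow (p := 2) 3 4 = 4 := map_ofNat (PadicInt.toZModPow (p := 2) 3) 4
  have c2 : PadicInt.toZModPow (p := 2) 3 2 = 2 := map_ofNat (PadicInt.toZModPow (p := 2) 3) 2
  have c5 : PadicInt.toZModPow (p := 2) 3 5 = 5 := map_ofNat (PadicInt.toZModPow (p := 2) 3) 5
  have d4 : ((4 : ℤ_[2]) : ℚ_[2]) = 4 := rfl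
  have d2 : ((2 : ℤ_[2]) : ℚ_[2]) = 2 := rfl
  have d5 : ((5 : ℤ_[2]) : ℚ_[2]) = 5 := rfl
  have hmm := mod8_five hm8
  rcases lt_or_ge v.valuation 0 with c | c
  · -- `v` is large
    have e1 := val_add_eq hv h9 hu (by rw [v9]; exact c)
    have e2 := val_add_eq hv h16 hw (by rw [v16]; omega)
    have h1 := (close2 hw hv (by
      rw [add_sub_cancel_left]
      exact h16) (by
      rw [add_sub_cancel_left, v16]
      omega)).1
    refine ⟨by rw [Int.even_iff]; omega, Or.inl ?_⟩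
    have e : v * (v + α * m) * (v + 4 * κ * m) = ((v + 4 * κ * m) * v) * (v + α * m) := by ring
    rw [e] at hs
    exact sq_cancel (mul_ne_zero hw hv) h1 hs
  · rcases le_or_gt v.valuation 2 with c' | c'
    · have c'' : v.valuation = 0 ∨ v.valuation = 1 ∨ v.valuation = 2 := by omega
      rcases c'' with c'' | c'' | c''
      · -- `v` is a unit
        refine ⟨by rw [c'']; exact Even.zero, Or.inr ?_⟩
        rw [c'', zpow_zero, one_mul] at hs2
        have k1 : PadicInt.toZModPow 3 (5 * s * (s + 4 * κ * (m : ℤ_[2]))) = 1 := by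
          rw [map_mul, map_mul, map_add, map_mul, map_mul, c4, c5, hκ.one, hmm]
          have : ∀ t : ZMod (2 ^ 3), t = 1 ∨ t = 3 ∨ t = 5 ∨ t = 7 →
            5 * t * (t + 4 * 1 * 5) = 1 := by decide
          exact this _ hodd'
        have q1 := sq_of_mod8 _ k1
        push_cast at q1
        rw [d4, d5] at q1
        rw [hs2] at hs hv hu hw ⊢
        have e : (5 * (s : ℚ_[2]) * (s + 4 * κ * m)) * ((s + α * m) * 5) =
            (5 * 5) * (s * (s + α * m) * (s + 4 * κ * m)) := by ring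
        refine sq_cancel (mul_ne_zero (mul_ne_zero (by norm_num) hv) hw) q1 ?_
        rw [e]
        exact (IsSquare.mul_self _).mul hs
      · -- valuation `1`
        exfalso
        rw [c'', zpow_one] at hs2
        obtain ⟨y, hy⟩ := hs
        obtain ⟨r, hr⟩ := int_of_sq (t := s * (2 * s + α * (m : ℤ_[2])) * (s + 2 * κ * (m : ℤ_[2]))) (y := y / 2) (by
          push_cast
          rw [d2, div_pow, pow_two y, ← hy, hs2]
          ring)
        have h1 := congrArg (PadicInt.toZModPow (p := 2) 3) hr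
        rw [map_pow, map_mul, map_mul, map_add, map_add, map_mul, map_mul, map_mul, map_mul, c2,
          hα.one, hκ.one, hmm] at h1
        have h2 : ∀ r t : ZMod (2 ^ 3), (t = 1 ∨ t = 3 ∨ t = 5 ∨ t = 7) →
          r ^ 2 ≠ t * (2 * t + 1 * 5) * (t + 2 * 1 * 5) := by decide
        exact h2 _ _ hodd' h1
      · -- valuation `2`
        refine ⟨by rw [c'']; exact even_two, Or.inl ?_⟩
        have e3 : (2 : ℚ_[2]) ^ (2 : ℤ) = 4 := by norm_num
        rw [c'', e3] at hs2
        have k1 : PadicInt.toZModPow 3 (4 * s + α * (m : ℤ_[2])) = 1 := by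
          rw [map_add, map_mul, map_mul, c4, hα.one, hmm]
          have : ∀ t : ZMod (2 ^ 3), t = 1 ∨ t = 3 ∨ t = 5 ∨ t = 7 →
            4 * t + 1 * 5 = 1 := by decide
          exact this _ hodd'
        have q1 := sq_of_mod8 _ k1
        push_cast at q1
        rw [d4] at q1
        rw [hs2]
        exact q1
    · -- `v` is small
      have e1 := val_add_eq h9 hv (by rwa [add_comm]) (by rw [v9]; omega)
      have e2 := val_add_eq h16 hv (by rwa [add_comm]) (by rw [v16]; omega)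
      rw [add_comm] at e1
      rw [add_comm] at e2
      refine ⟨by rw [Int.even_iff]; omega, Or.inr ?_⟩
      have h1 := (close2 hu h9 (by
        rw [add_sub_cancel_right]
        exact hv) (by
        rw [add_sub_cancel_right, v9]
        omega)).1
      have h2 : IsSquare (α : ℚ_[2]) := sq_of_mod8 α hα.one
      have h3 : IsSquare ((v + α * m) * m) := by
        refine sq_cancel hα.ne h2 ?_
        have e : (α : ℚ_[2]) * ((v + α * m) * m) = (v + α * m) * (α * m) := by ring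
        rw [e]
        exact h1
      have h4 : IsSquare ((m : ℚ_[2]) * 5) := by
        have k1 : PadicInt.toZModPow 3 ((m : ℤ_[2]) * 5) = 1 := by
          rw [map_mul, hmm, c5]
          decide
        have q1 := sq_of_mod8 _ k1
        push_cast at q1
        rw [d5] at q1
        exact q1
      exact sq_trans hm' h3 h4

/-- SLM-N2c -/
theorem t_N2c : Pool.Agent.N637.SLM.S_N2c := by
  intro m a c hcv hsq hc4 hm8 d1 d2 hd1 hd2 hloc
  obtain ⟨k, hk⟩ : ∃ k : ℤ, c = 2 * k := ⟨c / 2, by omega⟩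
  have hkodd : k % 2 = 1 := by omega
  obtain ⟨α, hαd⟩ : ∃ α : ℤ_[2], α = ((a ^ 2 : ℤ) : ℤ_[2]) := ⟨_, rfl⟩
  obtain ⟨κ, hκd⟩ : ∃ κ : ℤ_[2], κ = ((k ^ 2 : ℤ) : ℤ_[2]) := ⟨_, rfl⟩
  have hα : Un α := by rw [hαd]; exact un_sq hcv.ha
  have hκ : Un κ := by rw [hκd]; exact un_sq hkodd
  have hαq : (α : ℚ_[2]) = (a : ℚ_[2]) ^ 2 := by rw [hαd]; push_cast; rfl
  have hκq : (κ : ℚ_[2]) = (k : ℚ_[2]) ^ 2 := by rw [hκd]; push_cast; rfl
  obtain ⟨x, y, hy, hxy, h1, h2⟩ := hloc
  push_cast at hxy h1 h2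
  rw [sub_zero] at hxy h1
  obtain ⟨v, hv⟩ : ∃ v, v = x - (a : ℚ_[2]) ^ 2 * m := ⟨_, rfl⟩
  have e1 : v + α * m = x := by rw [hv, hαq]; ring
  have e2 : v + 4 * κ * m = x - -((c : ℚ_[2]) ^ 2 - (a : ℚ_[2]) ^ 2) * m := by
    rw [hv, hκq, hk]
    push_cast
    ring
  rw [← hv] at h2 hxy
  rw [← e2] at hxy
  have hprod : x * v * (v + 4 * κ * m) ≠ 0 := by
    rw [← hxy]
    exact pow_ne_zero 2 hy
  have hw0 : v + 4 * κ * m ≠ 0 := right_ne_zero_of_mul hprod
  have hx0 : x ≠ 0 := left_ne_zero_of_mul (left_ne_zero_of_mul hprod)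
  have hv0 : v ≠ 0 := right_ne_zero_of_mul (left_ne_zero_of_mul hprod)
  have hs : IsSquare (v * (v + α * m) * (v + 4 * κ * m)) := by
    refine ⟨y, ?_⟩
    rw [e1, ← sq, hxy]
    ring
  obtain ⟨he, hc⟩ := two_c hm8 hα hκ hv0 (by rw [e1]; exact hx0) hw0 hs
  rw [e1] at hc
  constructor
  · rcases hc with h3 | h3
    · have := odd_of_sq hd1 (sq_cancel hx0 h3 h1)
      omega
    · have h6 : IsSquare ((d1 : ℚ_[2]) * 5) := to_coord hx0 h3 h1
      have h9 : ¬ ((2 : ℕ) : ℤ) ∣ d1 := by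
        have h10 : IsSquare ((5 : ℚ_[2]) * d1) := by rwa [mul_comm]
        refine not_dvd_of_even (by norm_num) ?_ hd1 h10
        have : ((5 : ℤ) : ℚ_[2]).valuation = 0 := val_zero (by norm_num)
        have h5' : (5 : ℚ_[2]).valuation = 0 := by exact_mod_cast this
        rw [h5']
        exact Even.zero
      have h11 := mod_of_sq (d := d1 * 5) (by push_cast at h9; omega) (by push_cast; exact h6)
      omega
  · have h9 := not_dvd_of_even hv0 he hd2 h2
    push_cast at h9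
    omega

end Pool.Agent.N394.SLM
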